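import Pool.Agent.H45.KC.KVal

/-!
# Project AB, module Scale: solutions in `K` with some good places above `p`

A prime `v` above `p` is good for `(a, b, c)` if `v(a) = v(b) = v(c)`.

* `scale_mixed`: every solution in `K` is proportional to an integral one `(a', b', c')` without common
  factor above `p`, and `v` is good iff none of `a', b', c'` is in `v`.
* `scale_at`: the form used in the assembly.
* `exists_hom_ker`: every prime above `p` is the kernel of a homomorphism to an algebraically closed field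
  of characteristic `p`.
* `scale_good`: the two combined for a good place.
* `good_of_hom`: conversely.
* `FSol_map`, `CopAt_map`, `notMem_map`: extension of the field.
-/

open NumberField IsDedekindDomain H9FC H45KC

namespace H3AB

/-- scaling, mixed case -/
theorem scale_mixed {K : Type*} [Field K] [NumberField K] {p : ℕ} [Fact p.Prime]
    {a b c : K} (ha : a ≠ 0) (hb : b ≠ 0) (hc : c ≠ 0) (h : a ^ p + b ^ p + c ^ p = 0) :
    ∃ (l : K) (a' b' c' : 𝓞 K), l ≠ 0 ∧ (a' : K) = l * a ∧ (b' : K) = l * b ∧ (c' : K) = l * c ∧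
      FSol K p a' b' c' ∧ CopAt K p a' b' c' ∧
      ∀ v : HeightOneSpectrum (𝓞 K), (p : 𝓞 K) ∈ v.asIdeal →
        ((v.valuation K a = v.valuation K b ∧ v.valuation K b = v.valuation K c) ↔
          (a' ∉ v.asIdeal ∧ b' ∉ v.asIdeal ∧ c' ∉ v.asIdeal)) := by
  obtain ⟨l, a', b', c', hl, ea, eb, ec, hF, hcp, -⟩ := exists_norm K p p a b c ha hb hc h
  refine ⟨l, a', b', c', hl, ea, eb, ec, hF, hcp, fun v hv => ?_⟩
  rw [← not_dv_iff ha hb hc h v, dv_iff hl ea eb ec hcp v hv, dv_iff hl eb ec ea hcp.rot v hv,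
    dv_iff hl ec ea eb hcp.rot.rot v hv]

/-- the form used in the assembly: an integral solution proportional to the given one, without common
factor above `p` and prime to the good place `v` -/
theorem scale_at {K : Type*} [Field K] [NumberField K] {p : ℕ} [Fact p.Prime]
    {a b c : K} (ha : a ≠ 0) (hb : b ≠ 0) (hc : c ≠ 0) (h : a ^ p + b ^ p + c ^ p = 0)
    (v : HeightOneSpectrum (𝓞 K)) (hv : (p : 𝓞 K) ∈ v.asIdeal)
    (hg : v.valuation K a = v.valuation K b ∧ v.valuation K b = v.valuation K c) :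
    ∃ a' b' c' : 𝓞 K, FSol K p a' b' c' ∧ CopAt K p a' b' c' ∧
      a' ∉ v.asIdeal ∧ b' ∉ v.asIdeal ∧ c' ∉ v.asIdeal ∧
      (a' : K) * b = (b' : K) * a ∧ (a' : K) * c = (c' : K) * a := by
  obtain ⟨l, a', b', c', -, ea, eb, ec, hF, hcp, hall⟩ := scale_mixed ha hb hc h
  obtain ⟨h1, h2, h3⟩ := (hall v hv).1 hg
  refine ⟨a', b', c', hF, hcp, h1, h2, h3, ?_, ?_⟩
  · rw [ea, eb]; ring
  · rw [ea, ec]; ring

/-- every prime above `p` is the kernel of a homomorphism to `Ω` -/
theorem exists_hom_ker {K : Type*} [Field K] [NumberField K] (p : ℕ) [Fact p.Prime]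
    (Ω : Type*) [Field Ω] [IsAlgClosed Ω] [CharP Ω p] (P : Ideal (𝓞 K)) (hP : P.IsPrime)
    (hpP : (p : 𝓞 K) ∈ P) : ∃ φ : 𝓞 K →+* Ω, RingHom.ker φ = P := by
  obtain ⟨ψ, hψ⟩ := exists_redFam K p Ω
  obtain ⟨i, hi⟩ := exists_redFam_ker hψ p P hP hpP
  exact ⟨ψ i, hi⟩

/-- a solution in `K` with a good place `v` above `p`: integral solution and homomorphism with
kernel `v` at which none of the three numbers vanishes -/
theorem scale_good {K : Type*} [Field K] [NumberField K] {p : ℕ} [Fact p.Prime]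
    (Ω : Type*) [Field Ω] [IsAlgClosed Ω] [CharP Ω p]
    {a b c : K} (ha : a ≠ 0) (hb : b ≠ 0) (hc : c ≠ 0) (h : a ^ p + b ^ p + c ^ p = 0)
    (v : HeightOneSpectrum (𝓞 K)) (hv : (p : 𝓞 K) ∈ v.asIdeal)
    (hg : v.valuation K a = v.valuation K b ∧ v.valuation K b = v.valuation K c) :
    ∃ (l : K) (a' b' c' : 𝓞 K), l ≠ 0 ∧ (a' : K) = l * a ∧ (b' : K) = l * b ∧ (c' : K) = l * c ∧
      FSol K p a' b' c' ∧ CopAt K p a' b' c' ∧
      ∃ φ : 𝓞 K →+* Ω, RingHom.ker φ = v.asIdeal ∧ φ a' ≠ 0 ∧ φ b' ≠ 0 ∧ φ c' ≠ 0 := by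
  obtain ⟨l, a', b', c', hl, ea, eb, ec, hF, hcp, hall⟩ := scale_mixed ha hb hc h
  obtain ⟨φ, hφ⟩ := exists_hom_ker p Ω v.asIdeal v.isPrime hv
  obtain ⟨h1, h2, h3⟩ := (hall v hv).1 hg
  rw [← hφ, RingHom.mem_ker] at h1 h2 h3
  exact ⟨l, a', b', c', hl, ea, eb, ec, hF, hcp, φ, hφ, h1, h2, h3⟩

/-- conversely a homomorphism to a field of characteristic `p` at which none of the numbers vanishes
gives a good place -/
theorem good_of_hom {K : Type*} [Field K] [NumberField K] {p : ℕ} [Fact p.Prime]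
    {Ω : Type*} [Field Ω] [CharP Ω p] (a b c : 𝓞 K) (φ : 𝓞 K →+* Ω) (h1 : φ a ≠ 0) (h2 : φ b ≠ 0)
    (h3 : φ c ≠ 0) : ∃ v : HeightOneSpectrum (𝓞 K), RingHom.ker φ = v.asIdeal ∧
      (p : 𝓞 K) ∈ v.asIdeal ∧ v.valuation K (a : K) = v.valuation K (b : K) ∧
      v.valuation K (b : K) = v.valuation K (c : K) := by
  have hpp : p.Prime := Fact.out
  have hpk : (p : 𝓞 K) ∈ RingHom.ker φ := by
    rw [RingHom.mem_ker, map_natCast]
    exact CharP.cast_eq_zero Ω p
  have hne : RingHom.ker φ ≠ ⊥ := by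
    intro h0
    rw [h0, Ideal.mem_bot, Nat.cast_eq_zero] at hpk
    exact hpp.ne_zero hpk
  let v : HeightOneSpectrum (𝓞 K) := ⟨RingHom.ker φ, RingHom.ker_isPrime φ, hne⟩
  have hval : ∀ x : 𝓞 K, φ x ≠ 0 → v.valuation K (x : K) = 1 := by
    intro x hx
    refine le_antisymm (v.valuation_le_one x) (not_lt.1 fun hlt => hx ?_)
    exact (v.valuation_lt_one_iff_mem x).1 hlt
  exact ⟨v, rfl, hpk, by rw [hval a h1, hval b h2], by rw [hval b h2, hval c h3]⟩

/-- solutions in an extension -/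
theorem FSol_map {K L : Type*} [Field K] [NumberField K] [Field L] [NumberField L] (ι : K →+* L)
    {p : ℕ} {a b c : 𝓞 K} (h : FSol K p a b c) :
    FSol L p (RingOfIntegers.mapRingHom ι a) (RingOfIntegers.mapRingHom ι b)
      (RingOfIntegers.mapRingHom ι c) := by
  have hinj : Function.Injective (RingOfIntegers.mapRingHom ι) := by
    intro x y hxy
    apply RingOfIntegers.ext
    apply ι.injective
    exact congrArg (fun z : 𝓞 L => (z : L)) hxy
  refine ⟨?_, ?_, ?_, ?_⟩
  · exact (map_ne_zero_iff _ hinj).2 h.1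
  · exact (map_ne_zero_iff _ hinj).2 h.2.1
  · exact (map_ne_zero_iff _ hinj).2 h.2.2.1
  · rw [← map_pow, ← map_pow, ← map_pow, ← map_add, ← map_add, h.2.2.2, map_zero]

/-- no common factor above `p` in an extension -/
theorem CopAt_map {K L : Type*} [Field K] [NumberField K] [Field L] [NumberField L]
    (g : 𝓞 K →+* 𝓞 L) {p : ℕ} {a b c : 𝓞 K} (h : CopAt K p a b c) :
    CopAt L p (g a) (g b) (g c) := by
  intro P hP hpP hcon
  refine h (P.comap g) (Ideal.comap_isPrime g P) ?_ hcon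
  rw [Ideal.mem_comap, map_natCast]
  exact hpP

end H3AB
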